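import Pool.Agent.helper53.BND.SpecL

set_option autoImplicit false

open scoped Topology Matrix
open Filter Finset

namespace Pool.Agent.BND

open Pool.Agent.CZ Pool.Agent.PV

theorem LBE_aux (hLBD : LBD_stmt) (κ : Type) [Fintype κ] [DecidableEq κ] (h : ℕ → ℕ)
    (u : List ℕ) (H : ℕ) (hH : (u.map h).sum = H) (x : κ → κ → ℕ → ℕ → ℕ → ℂ) :
    (Matrix.of fun p q : κ × Fin H => bd h u (x p.1 q.1) p.2 q.2).det =
      (u.map fun v => (Matrix.of fun p q : κ × Fin (h v) => x p.1 q.1 v p.2 q.2).det).prod := by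
  subst hH
  rw [← hLBD.1 ℕ κ h u x]
  congr 1
  ext p q
  simp only [Matrix.of_apply]
  exact hLBD.2 h u (x p.1 q.1) p.2 q.2 p.2.2 q.2.2

theorem LBE (hLBD : LBD_stmt) : LBE_stmt := by
  intro l hl κ _ _ e b x he
  exact LBE_aux hLBD κ l.h (l.W e b) (l.h e) (hl.ht e he b) x

end Pool.Agent.BND
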